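import Pool.Agent.Helper8.SPV.Stmts

set_option autoImplicit false

namespace Pool.Agent.Helper8.SPV

theorem KERN_anti {k K : Type} [Field k] [CharZero k] [Field K] [Algebra k K]
    (D : Derivation k K K) (u : K) (hu : D u = 1) (N : ℕ) (h : K)
    (hh : h ∈ Submodule.span k (Set.range fun i : Fin (N + 1) => u ^ (i : ℕ))) :
    ∃ g ∈ Submodule.span k (Set.range fun i : Fin (N + 1 + 1) => u ^ (i : ℕ)), D g = h := by
  induction hh using Submodule.span_induction with
  | mem x hx =>
    obtain ⟨i, rfl⟩ := hx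
    refine ⟨((i : ℕ) + 1 : k)⁻¹ • u ^ ((i : ℕ) + 1), ?_, ?_⟩
    · apply Submodule.smul_mem
      apply Submodule.subset_span
      exact ⟨⟨(i : ℕ) + 1, by have := i.2; omega⟩, rfl⟩
    · have hi : ((i : ℕ) + 1 : k) ≠ 0 := by exact_mod_cast Nat.succ_ne_zero (i : ℕ)
      rw [Derivation.map_smul, Derivation.leibniz_pow, hu]
      simp only [Nat.add_sub_cancel, smul_eq_mul, mul_one]
      rw [← Nat.cast_smul_eq_nsmul k, smul_smul]
      push_cast
      rw [inv_mul_cancel₀ hi, one_smul]
  | zero => exact ⟨0, Submodule.zero_mem _, by simp⟩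
  | add x y _ _ hx hy =>
    obtain ⟨a, ha, ha'⟩ := hx
    obtain ⟨b, hb, hb'⟩ := hy
    exact ⟨a + b, Submodule.add_mem _ ha hb, by rw [map_add, ha', hb']⟩
  | smul c x _ hx =>
    obtain ⟨a, ha, ha'⟩ := hx
    exact ⟨c • a, Submodule.smul_mem _ _ ha, by rw [Derivation.map_smul, ha']⟩

theorem st_KERN (hD : ST_DER1) : ST_KERN := by
  intro k K _ _ _ _ _ hFF D u hu N
  have hD0 : D ≠ 0 := by
    rintro rfl
    simp at hu
  have hker := (hD k K hFF).1 D hD0
  induction N with
  | zero =>
    intro f hf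
    obtain ⟨c, rfl⟩ := hker f (by simpa using hf)
    have : algebraMap k K c = c • (u ^ ((0 : Fin 1) : ℕ)) := by
      simp [Algebra.smul_def]
    rw [this]
    apply Submodule.smul_mem
    apply Submodule.subset_span
    exact ⟨0, rfl⟩
  | succ N ih =>
    intro f hf
    have h1 : (D^[N + 1]) (D f) = 0 := by
      rw [← Function.iterate_succ_apply]
      exact hf
    obtain ⟨g, hg, hg'⟩ := KERN_anti D u hu N (D f) (ih (D f) h1)
    obtain ⟨c, hc⟩ := hker (f - g) (by rw [map_sub, hg', sub_self])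
    have h2 : f = g + c • (u ^ ((0 : Fin (N + 1 + 1)) : ℕ)) := by
      have : (u ^ ((0 : Fin (N + 1 + 1)) : ℕ)) = 1 := by simp
      rw [this, Algebra.smul_def, mul_one, ← hc]
      ring
    rw [h2]
    apply Submodule.add_mem _ hg
    apply Submodule.smul_mem
    apply Submodule.subset_span
    exact ⟨0, rfl⟩

end Pool.Agent.Helper8.SPV
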