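import Pool.Agent.Helper8.SPV.Stmts

set_option autoImplicit false

namespace Pool.Agent.Helper8.SPV

theorem st_PL5 : ST_PL5 := by
  intro k K _ _ _ _ _ hFF f hf
  have key := iInf_valuationSubring_superset (K := K) (s := ((algebraMap k K).range : Set K))
  have hmem : f ∈ (⨅ V : {V : ValuationSubring K //
      ((algebraMap k K).range : Set K) ⊆ V.toSubring}, V.1.toSubring) := by
    rw [Subring.mem_iInf]
    rintro ⟨V, hV⟩
    by_cases hT : V = ⊤
    · subst hT
      exact ValuationSubring.mem_top f
    · exact hf ⟨V, fun c => hV ⟨c, rfl⟩, hT⟩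
  rw [key] at hmem
  have hint : IsIntegral (Subring.closure ((algebraMap k K).range : Set K)) f := hmem
  rw [Subring.closure_eq] at hint
  have hint2 : IsIntegral k f := by
    obtain ⟨P, hP, hP2⟩ := hint
    have hsurj : Function.Surjective (algebraMap k K).rangeRestrict :=
      (algebraMap k K).rangeRestrict_surjective
    obtain ⟨Q, hQ, hQd, hQm⟩ := Polynomial.lifts_and_degree_eq_and_monic
      (f := (algebraMap k K).rangeRestrict)
      (by
        rw [Polynomial.lifts_iff_coeff_lifts]
        intro n
        exact hsurj _) hP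
    refine ⟨Q, hQm, ?_⟩
    rw [← hQ, Polynomial.eval₂_map] at hP2
    exact hP2
  obtain ⟨c, hc⟩ := minpoly.mem_range_of_degree_eq_one k f
    (IsAlgClosed.degree_eq_one_of_irreducible k (minpoly.irreducible hint2))
  exact ⟨c, hc.symm⟩

end Pool.Agent.Helper8.SPV
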